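import Pool.Agent.H822B.Final
set_option autoImplicit false
namespace Pool.Agent.Results.MP_18cae5_an.BoundaryOnlyCommonZeros
open Metric Set

/-- `f` belongs to the ball algebra of the unit ball of `ℂⁿ`: it is continuous on the closed unit ball and
holomorphic in the open unit ball (values off the closed ball play no role). -/
def InBallAlgebra (n : ℕ) (f : EuclideanSpace ℂ (Fin n) → ℂ) : Prop :=
  ContinuousOn f (closedBall (0 : EuclideanSpace ℂ (Fin n)) 1) ∧
    DifferentiableOn ℂ f (ball (0 : EuclideanSpace ℂ (Fin n)) 1)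

/-- `K` is a (Z)-set: it is the zero set in the closed ball of some function in the ball algebra. -/
def IsZSet (n : ℕ) (K : Set (EuclideanSpace ℂ (Fin n))) : Prop :=
  ∃ f : EuclideanSpace ℂ (Fin n) → ℂ, InBallAlgebra n f ∧
    {z | z ∈ closedBall (0 : EuclideanSpace ℂ (Fin n)) 1 ∧ f z = 0} = K

/-- The set `E_K` of the points of the closed ball off `K` at which every function in the ball algebra that
vanishes on `K` vanishes. -/
def commonZeros (n : ℕ) (K : Set (EuclideanSpace ℂ (Fin n))) : Set (EuclideanSpace ℂ (Fin n)) :=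
  {z | z ∈ closedBall (0 : EuclideanSpace ℂ (Fin n)) 1 ∧ z ∉ K ∧
    ∀ f : EuclideanSpace ℂ (Fin n) → ℂ, InBallAlgebra n f → (∀ x ∈ K, f x = 0) → f z = 0}

abbrev E2 : Type := EuclideanSpace ℂ (Fin 2)

/-- The projection to the first two coordinates. -/
noncomputable def pr (m : ℕ) (z : EuclideanSpace ℂ (Fin (m + 2))) : E2 := !₂[z 0, z 1]

/-- The inclusion of the plane of the first two coordinates. -/
noncomputable def inc (m : ℕ) (w : E2) : EuclideanSpace ℂ (Fin (m + 2)) :=
  w 0 • EuclideanSpace.single (0 : Fin (m + 2)) (1 : ℂ) + w 1 • EuclideanSpace.single (1 : Fin (m + 2)) (1 : ℂ)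

theorem pr_inc (m : ℕ) (w : E2) : pr m (inc m w) = w := by
  ext i
  fin_cases i <;> simp [pr, inc]

theorem pr_diff (m : ℕ) : Differentiable ℂ (pr m) := by
  intro z
  rw [differentiableAt_euclidean]
  intro i
  have h0 : Differentiable ℂ (fun z : EuclideanSpace ℂ (Fin (m + 2)) => z 0) := by fun_prop
  have h1 : Differentiable ℂ (fun z : EuclideanSpace ℂ (Fin (m + 2)) => z 1) := by fun_prop
  fin_cases i
  · exact h0 z
  · exact h1 z

theorem inc_diff (m : ℕ) : Differentiable ℂ (inc m) := by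
  have h0 : Differentiable ℂ (fun z : E2 => z 0) := by fun_prop
  have h1 : Differentiable ℂ (fun z : E2 => z 1) := by fun_prop
  unfold inc
  exact (h0.smul_const _).add (h1.smul_const _)

theorem norm_pr_le (m : ℕ) (z : EuclideanSpace ℂ (Fin (m + 2))) : ‖pr m z‖ ≤ ‖z‖ := by
  have h : ‖pr m z‖ ^ 2 ≤ ‖z‖ ^ 2 := by
    rw [EuclideanSpace.norm_sq_eq, EuclideanSpace.norm_sq_eq, Fin.sum_univ_two]
    have h1 : ‖pr m z 0‖ ^ 2 + ‖pr m z 1‖ ^ 2 = ∑ i ∈ ({0, 1} : Finset (Fin (m + 2))), ‖z i‖ ^ 2 := by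
      rw [Finset.sum_pair (by simp)]; simp [pr]
    rw [h1]
    exact Finset.sum_le_sum_of_subset_of_nonneg (Finset.subset_univ _) (fun i _ _ => by positivity)
  exact le_of_sq_le_sq h (norm_nonneg _)

theorem norm_inc (m : ℕ) (w : E2) : ‖inc m w‖ = ‖w‖ := by
  have h : ‖inc m w‖ ^ 2 = ‖w‖ ^ 2 := by
    rw [EuclideanSpace.norm_sq_eq, EuclideanSpace.norm_sq_eq, Fin.sum_univ_two]
    have h1 : ∑ i : Fin (m + 2), ‖inc m w i‖ ^ 2 = ∑ i ∈ ({0, 1} : Finset (Fin (m + 2))), ‖inc m w i‖ ^ 2 := by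
      symm
      apply Finset.sum_subset (Finset.subset_univ _)
      intro i _ hi
      simp only [Finset.mem_insert, Finset.mem_singleton, not_or] at hi
      have : inc m w i = 0 := by simp [inc, hi.1, hi.2]
      rw [this]; simp
    rw [h1, Finset.sum_pair (by simp)]
    have e0 : inc m w 0 = w 0 := by simp [inc]
    have e1 : inc m w 1 = w 1 := by simp [inc]
    rw [e0, e1]
  have h0 := norm_nonneg (inc m w)
  have h1 := norm_nonneg w
  exact (pow_left_inj₀ h0 h1 two_ne_zero).mp h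

/-- For every `n ≥ 2` there is a compact subset `K` of the unit sphere of `ℂⁿ` that is not a (Z)-set and whose set
`E_K` of common zeros off `K` meets the sphere but not the open ball. -/
theorem result (n : ℕ) (hn : 2 ≤ n) : ∃ K : Set (EuclideanSpace ℂ (Fin n)),
    IsCompact K ∧ K ⊆ sphere (0 : EuclideanSpace ℂ (Fin n)) 1 ∧ ¬ IsZSet n K ∧
      (commonZeros n K ∩ sphere (0 : EuclideanSpace ℂ (Fin n)) 1).Nonempty ∧
      commonZeros n K ∩ ball (0 : EuclideanSpace ℂ (Fin n)) 1 = ∅ := by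
  obtain ⟨m, rfl⟩ := Nat.exists_eq_add_of_le hn
  rw [add_comm 2 m]
  obtain ⟨K, hKc, hKs, ⟨p, hps, hpK, hp⟩, hB⟩ := Pool.Agent.H822B.main2
  have hcom : inc m p ∈ commonZeros (m + 2) (inc m '' K) ∩ sphere (0 : EuclideanSpace ℂ (Fin (m + 2))) 1 := by
    have hs : inc m p ∈ sphere (0 : EuclideanSpace ℂ (Fin (m + 2))) 1 := by
      rw [mem_sphere_zero_iff_norm] at hps ⊢
      rw [norm_inc]; exact hps
    refine ⟨⟨sphere_subset_closedBall hs, ?_, ?_⟩, hs⟩
    · rintro ⟨w, hw, hwp⟩
      have := congrArg (pr m) hwp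
      rw [pr_inc, pr_inc] at this
      exact hpK (this ▸ hw)
    · intro f hf h0
      apply hp (fun w => f (inc m w))
      · apply hf.1.comp (inc_diff m).continuous.continuousOn
        intro w hw
        rw [mem_closedBall_zero_iff] at hw ⊢
        rw [norm_inc]; exact hw
      · apply hf.2.comp (inc_diff m).differentiableOn
        intro w hw
        rw [mem_ball_zero_iff] at hw ⊢
        rw [norm_inc]; exact hw
      · intro w hw
        exact h0 _ (mem_image_of_mem _ hw)
  refine ⟨inc m '' K, hKc.image (inc_diff m).continuous, ?_, ?_, ⟨_, hcom⟩, ?_⟩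
  · rintro _ ⟨w, hw, rfl⟩
    have := hKs hw
    rw [mem_sphere_zero_iff_norm] at this ⊢
    rw [norm_inc]; exact this
  · rintro ⟨f, hf, hZ⟩
    have h1 : ∀ x ∈ inc m '' K, f x = 0 := by
      intro x hx
      rw [← hZ] at hx
      exact hx.2
    have h2 := hcom.1.2.2 f hf h1
    exact hcom.1.2.1 (by rw [← hZ]; exact ⟨hcom.1.1, h2⟩)
  · rw [Set.eq_empty_iff_forall_notMem]
    rintro z ⟨⟨-, -, hz⟩, hzb⟩
    have hzb' : pr m z ∈ ball (0 : E2) 1 := by
      rw [mem_ball_zero_iff] at hzb ⊢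
      exact (norm_pr_le m z).trans_lt hzb
    obtain ⟨f, hfc, hfd, hf0, hfz⟩ := hB (pr m z) hzb'
    apply hfz
    apply hz (fun y => f (pr m y))
    · constructor
      · apply hfc.comp (pr_diff m).continuous.continuousOn
        intro w hw
        rw [mem_closedBall_zero_iff] at hw ⊢
        exact (norm_pr_le m w).trans hw
      · apply hfd.comp (pr_diff m).differentiableOn
        intro w hw
        rw [mem_ball_zero_iff] at hw ⊢
        exact (norm_pr_le m w).trans_lt hw
    · rintro _ ⟨w, hw, rfl⟩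
      rw [pr_inc]
      exact hf0 w hw

end Pool.Agent.Results.MP_18cae5_an.BoundaryOnlyCommonZeros
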